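import Pool.Agent.helper76.FP.Spec

/-!
# Row fp:PIG (MP_bf63dc_nt)
-/

set_option autoImplicit false

namespace Pool.Agent.FP

open Finset
open Pool.Agent.FR (mean)
open Pool.Agent.AT (Qk Pair)
open Pool.Agent.HF (Om TC)
open Pool.Agent.DP (Fm PrE CORE2_stmt)

theorem PIG_comm {A B C D X : Type} [Fintype A] [Fintype B] [Fintype C] [Fintype D] [Fintype X] (F : A → B → C → D → X → ℝ) :
    ∑ x, ∑ a, ∑ b, ∑ c, ∑ d, F a b c d x = ∑ a, ∑ b, ∑ c, ∑ d, ∑ x, F a b c d x := by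
  rw [Finset.sum_comm]
  refine Finset.sum_congr rfl fun a _ => ?_
  rw [Finset.sum_comm]
  refine Finset.sum_congr rfl fun b _ => ?_
  rw [Finset.sum_comm]
  refine Finset.sum_congr rfl fun c _ => ?_
  rw [Finset.sum_comm]

theorem PIG_mean {L : Type} [Fintype L] [Nonempty L] {G : ℕ} (α : Fin G → ℝ) (T : L → Equiv.Perm (Fin G)) :
    ∑ φ, mean (fun z => α (T z φ)) = ∑ φ, α φ := by
  unfold Pool.Agent.FR.mean
  rw [← Finset.sum_div, Finset.sum_comm, Finset.sum_congr rfl fun z _ => Equiv.sum_comp (T z) α]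
  have hL : (Fintype.card L : ℝ) ≠ 0 := by exact_mod_cast Fintype.card_ne_zero
  rw [Finset.sum_const, Finset.card_univ, nsmul_eq_mul, mul_div_cancel_left₀ _ hL]

theorem PIG_c {x y : ℝ} (hy : 0 ≤ y) : x * (y / x) ≤ y := by
  by_cases hx : x = 0
  · rw [hx, zero_mul]
    exact hy
  · rw [mul_div_cancel₀ _ hx]

theorem PIG (hSTL : STL_stmt) : PIG_stmt := by
  classical
  intro k J EE _ p q t G α T hk hJ hG ht ht1 hα hS hJt hm
  by_contra hcon
  push Not at hcon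
  have hJ0 : (0 : ℝ) < J := by exact_mod_cast hJ
  have hG0 : (0 : ℝ) < G := by exact_mod_cast hG
  haveI : Nonempty (Fin k) := ⟨⟨0, hk⟩⟩
  set P : ℝ := (Fintype.card (Fin J → Option EE) : ℝ) with hP
  set E : ℝ := (Fintype.card EE : ℝ) with hE
  have hP0 : 0 ≤ P := Nat.cast_nonneg _
  have hE0 : 0 ≤ E := Nat.cast_nonneg _
  set c : ℝ := t ^ 3 / (J * E * P ^ 2) with hc
  have hc0 : 0 ≤ c := by positivity
  set F : Fin J → EE → (Fin J → Option EE) → (Fin J → Option EE) → Fin G → ℝ :=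
    fun l e π π' φ => if Fc l e π π' then α (T (π, p e) φ) * α (T (π', q e) φ) else 0 with hF
  have h1 : ∀ φ : Fin G, mean (fun z => α (T z φ)) ≤ 1 / 4 + t + (t ^ 2)⁻¹ * ((∑ l, ∑ e, ∑ π, ∑ π', F l e π π' φ) + 2 * (E + 1) * k / J) :=
    fun φ => hSTL J k EE p q (fun z => α (T z φ)) t hJ hk ht (fun z => hα _) hS
  have h2 : (t ^ 2)⁻¹ * (2 * (E + 1) * k / J) ≤ t := by
    have h3 : 2 * (E + 1) * k / J ≤ t ^ 3 := by
      rw [div_le_iff₀ hJ0]
      exact hJt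
    have h4 : (t ^ 2)⁻¹ * (2 * (E + 1) * k / J) ≤ (t ^ 2)⁻¹ * t ^ 3 := mul_le_mul_of_nonneg_left h3 (by positivity)
    have h5 : (t ^ 2)⁻¹ * t ^ 3 = t := by
      field_simp
    linarith
  have h3 : ∑ φ, mean (fun z => α (T z φ)) ≤ G * (1 / 4 + 2 * t) + (t ^ 2)⁻¹ * ∑ φ, ∑ l, ∑ e, ∑ π, ∑ π', F l e π π' φ := by
    have h4 : ∀ φ : Fin G, mean (fun z => α (T z φ)) ≤ (1 / 4 + 2 * t) + (t ^ 2)⁻¹ * ∑ l, ∑ e, ∑ π, ∑ π', F l e π π' φ := by
      intro φ
      refine (h1 φ).trans ?_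
      rw [mul_add]
      linarith
    refine (Finset.sum_le_sum fun φ _ => h4 φ).trans (le_of_eq ?_)
    rw [Finset.sum_add_distrib, Finset.sum_const, Finset.card_univ, Fintype.card_fin, nsmul_eq_mul, ← Finset.mul_sum]
  rw [PIG_mean α T, PIG_comm F] at h3
  have h4 : ∑ l, ∑ e, ∑ π, ∑ π', ∑ φ, F l e π π' φ ≤ G * t ^ 3 := by
    have h5 : ∀ l e π π', ∑ φ, F l e π π' φ ≤ G * c := by
      intro l e π π'
      simp only [hF]
      split_ifs with h
      · have h6 := (hcon l e π π' h).le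
        unfold Pool.Agent.FR.mean at h6
        rw [Fintype.card_fin, div_le_iff₀ hG0] at h6
        linarith
      · simp only [Finset.sum_const_zero]
        positivity
    have h6 : ∑ l, ∑ e, ∑ π, ∑ π', ∑ φ, F l e π π' φ ≤ ∑ _l : Fin J, ∑ _e : EE, ∑ _π : Fin J → Option EE, ∑ _π' : Fin J → Option EE, (G : ℝ) * c :=
      Finset.sum_le_sum fun l _ => Finset.sum_le_sum fun e _ => Finset.sum_le_sum fun π _ => Finset.sum_le_sum fun π' _ => h5 l e π π'
    refine h6.trans ?_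
    simp only [Finset.sum_const, Finset.card_univ, Fintype.card_fin, nsmul_eq_mul]
    rw [← hE, ← hP]
    have h7 : (J : ℝ) * (E * (P * (P * (G * c)))) = G * (J * E * P ^ 2 * c) := by ring
    rw [h7]
    refine mul_le_mul_of_nonneg_left ?_ hG0.le
    rw [hc]
    exact PIG_c (by positivity)
  have h5 : (t ^ 2)⁻¹ * ∑ l, ∑ e, ∑ π, ∑ π', ∑ φ, F l e π π' φ ≤ G * t := by
    refine (mul_le_mul_of_nonneg_left h4 (by positivity)).trans (le_of_eq ?_)
    field_simp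
  have h6 : G * (1 / 4 + 7 * t) ≤ ∑ φ, α φ := by
    unfold Pool.Agent.FR.mean at hm
    rw [Fintype.card_fin, le_div_iff₀ hG0] at hm
    linarith
  nlinarith

end Pool.Agent.FP
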